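import Pool.Agent.helper52.T1.Defs
import Pool.Agent.helper65.T1.SpecN

/-!
# MP_07c750, PROJECT T1: blocks S (digits) and G (geometry of the leaves), rows `t1:XXX`

RULES: file `Pool/Agent/<seat>/T1/XXX.lean`, `import Pool.Agent.helper52.T1.SpecS`, `set_option autoImplicit false`, namespace `Pool.Agent.T1`, auxiliary lemmas prefixed `XXX_`, theorem `XXX_proof (h : YYY_stmt) .. : XXX_stmt`; rows listed in `from` are hypotheses (rows of IR: `(h : IR.CTF_stmt)`, `(h : IR.CTB_stmt)`, `(h : IR.NET_stmt)`; RS: `(h : RS.GLC_stmt)`). No straight double quotes, no convert / congr!.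
`e(x) = exp(2πix) = e1 x`, `n = log N0`.
-/

open scoped MatrixGroups ContDiff Topology UpperHalfPlane ComplexConjugate
open UpperHalfPlane MeasureTheory Filter Set

namespace Pool.Agent.T1

open Pool.Agent.RS Pool.Agent.MS Pool.Agent.HV
open Pool.Agent.EN (XG MG mkX mkM fl pr)

noncomputable section

/-! ## S. The leaf inequality -/

/-- **Row MON** (short; pure). Everything is bounded and measurable. (1) monotone; (2) the integral over a union is at most the sum; (3) `|x + y|² ≤ 2|x|² + 2|y|²` (`J2 \ J1` in place of `J2`: use (1)); (4) `e((j + s) v) = e(sv) e(jv)`; (5) `cel` is measurable and contained in `[0, 1)`, monotone in `C`. -/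
def MON_stmt : Prop :=
  (∀ (Y Y' : Set ℝ) (J J' : Finset ℕ) (Q Q' : ℝ), MeasurableSet Y → MeasurableSet Y' → Y ⊆ Icc 0 1 → Y' ⊆ Y → J' ⊆ J → 0 ≤ Q → Q ≤ Q' → LQ Y J Q → LQ Y' J' Q') ∧
  (∀ (Y Y' : Set ℝ) (J : Finset ℕ) (Q Q' : ℝ), MeasurableSet Y → MeasurableSet Y' → Y ⊆ Icc 0 1 → Y' ⊆ Icc 0 1 → LQ Y J Q → LQ Y' J Q' → LQ (Y ∪ Y') J (Q + Q')) ∧
  (∀ (Y : Set ℝ) (J J' : Finset ℕ) (Q Q' : ℝ), MeasurableSet Y → Y ⊆ Icc 0 1 → 0 ≤ Q → 0 ≤ Q' → LQ Y J Q → LQ Y J' Q' → LQ Y (J ∪ J') (2 * (Q + Q'))) ∧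
  (∀ (Y : Set ℝ) (J : Finset ℕ) (s : ℕ) (Q : ℝ), MeasurableSet Y → Y ⊆ Icc 0 1 → LQ Y J Q → LQ Y (J.image fun j => j + s) Q) ∧
  ∀ (N : ℕ) (C C' : Finset ℕ), 1 ≤ N → (∀ c ∈ C, c < N) → C' ⊆ C → MeasurableSet (cel N C) ∧ cel N C ⊆ Icc 0 1 ∧ cel N C' ⊆ cel N C ∧ volume.real (cel N C) ≤ C.card / N

/-- **Row HSB** (short; pure). (1) Cauchy-Schwarz `|Σ a_j e(jv)|² ≤ #J Σ|a_j|²`, the measure of `cel N C` is `#C/N`. (2) Parseval on `[0, 1)`: `∫_0^1 e((j - j')v) dv = δ`. -/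
def HSB_stmt : Prop := ∀ (N : ℕ) (C J : Finset ℕ), 1 ≤ N → (∀ c ∈ C, c < N) → LQ (cel N C) J (C.card / N * J.card) ∧ LQ (cel N C) J 1

open Classical in
/-- **Row SUB** (SUBMULTIPLICATIVITY; medium; pure). `v = (c1 + v')/N1` (`c1 < N1`, `v' ∈ [0, 1)`), `j = N1 d + e` (`e < N1`): `jv = d c1 + d v' + e v`, so `e(jv) = e(dv') e(ev)`. `f(v) = Σ_d e(dv') b_d(v')`, `b_d(v') = Σ_e a_(d,e) e(e (c1 + v')/N1)`, `b_d' = Σ_e (2πi e/N1) a_(d,e) e(..)`.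
`b_d(v') = b_d(0) + ∫_0^(v') b_d'`, so `|f|² ≤ 2|Σ_d e(dv') b_d(0)|² + 2∫_0^1 |Σ_d e(dv') b_d'(u)|² du`; integrate over `v' ∈ cel N2 C_(c1)` (Fubini): `≤ 2 Q2 Σ_d (|b_d(0)|² + ∫_0^1 |b_d'|²)`, and `|b(0)|² ≤ 2∫_0^1|b|² + 2∫_0^1|b'|²`. `dv = dv'/N1`; `N1⁻¹ Σ_(c1) ∫_0^1 |b_d(c1, u)|² du = ∫_(cel N1 C⁺) |Σ_e a_(d,e) e(ev)|² dv ≤ Q1 Σ_e |a_(d,e)|²`,
and with the coefficients `(2πi e/N1) a_(d,e)`: `≤ 4π² Q1 Σ_e |a_(d,e)|²`. `C0 = 2(2 + 12π²)`. -/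
def SUB_stmt : Prop := ∃ C0 : ℝ, 1 ≤ C0 ∧ ∀ (N1 N2 : ℕ) (C J : Finset ℕ) (Q1 Q2 : ℝ), 1 ≤ N1 → 1 ≤ N2 → (∀ c ∈ C, c < N1 * N2) → (∀ j ∈ J, j < N1 * N2) → 0 ≤ Q1 → 0 ≤ Q2 →
  (∀ c1 ∈ C.image (fun c => c / N2), LQ (cel N2 ((C.filter fun c => c / N2 = c1).image fun c => c % N2)) (J.image fun j => j / N1) Q2) →
  (∀ d ∈ J.image (fun j => j / N1), LQ (cel N1 (C.image fun c => c / N2)) ((J.filter fun j => j / N1 = d).image fun j => j % N1) Q1) →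
    LQ (cel (N1 * N2) C) J (C0 * Q1 * Q2)

/-- **Row SCR** (Schur test; short-medium; pure). On `cel N Cs` the function `χ(v) = Σ_(κ ∈ U) 1{|v - v_κ| ≤ 9/N}` is `≥ 1`, so `∫ |f|² ≤ ∫ χ|f|² = Σ_(j, j') a_j conj(a_j') S(j - j') D(j - j')`, `S(θ) = Σ_κ e(θ v_κ)`, `D(θ) = ∫_(|s| ≤ 9/N) e(θs) ds`, `|D| ≤ 18/N`. Schur: at most
`Σ|a_j|² sup_j Σ_(j') |S(j - j')| 18/N`; `|S| ≤ #U` for `|j - j'| < H`. -/
def SCR_stmt : Prop := ∀ (N : ℕ) (Cs J : Finset ℕ) (U : Finset ℤ) (v : ℤ → ℝ) (H D S : ℝ), 1 ≤ N → 0 ≤ D → 0 ≤ S → (∀ c ∈ Cs, c < N) → (∀ c ∈ Cs, ∃ κ ∈ U, |(c : ℝ) / N - v κ| ≤ 8 / N) →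
  (∀ j ∈ J, ∀ T : Finset ℕ, T ⊆ J → (∀ j' ∈ T, |(j : ℝ) - j'| < H) → (T.card : ℝ) ≤ D) → (∀ j ∈ J, ∀ j' ∈ J, H ≤ |(j : ℝ) - j'| → ‖∑ κ ∈ U, e1 (((j : ℝ) - j') * v κ)‖ ≤ S) →
    LQ (cel N Cs) J (18 / N * (U.card * D + J.card * S))

/-! ## Self-similarity -/

/-- **Row YSP** (short; from RS.GLC). `i < k1`: the ancestors are the same (`(c / N0^k2) / N0^(k1-1-i) = c / N0^(k1+k2-1-i)`), the same point `v`. `i = k1 + i'`: `v'' = v N0^k1 - c / N0^k2`; `h lM(4v) aM(k1 n) = h lM(4 c1/N0^k1) aM(k1 n) lM(4 v'')` (`e^(k1 n) = N0^k1`), `c / N0^(k2-1-i') = (c / N0^k2) N0^(i'+1) + (c % N0^k2)/N0^(k2-1-i')`. -/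
def YSP_stmt : Prop := ∀ (W : Set SL(2, ℝ)) (N0 k1 k2 : ℕ) (p : ℕ → Bool) (h : SL(2, ℝ)) (c : ℕ), 1 ≤ N0 → c ∈ YC W N0 (k1 + k2) p h →
  c / N0 ^ k2 ∈ YC W N0 k1 p h ∧ c % N0 ^ k2 ∈ YC W N0 k2 (sh k1 p) (h * lM (4 * (((c / N0 ^ k2 : ℕ) : ℝ) / N0 ^ k1)) * aM (k1 * Real.log N0))

/-- **Row JSP** (short; from RS.GLC). `i = k1 + i'`: `j / N0^(k1+i') = (j / N0^k1)/N0^i'`, the same `x`. `i < k1`: `x'' = x N0^k2 - j / N0^k1`, `g nM x aM(-k2 n) = g nM(d/N0^k2) aM(-k2 n) nM x''`. -/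
def JSP_stmt : Prop := ∀ (W : Set SL(2, ℝ)) (N0 k1 k2 : ℕ) (q : ℕ → Bool) (g : SL(2, ℝ)) (j : ℕ), 1 ≤ N0 → j ∈ JN W N0 (k1 + k2) q g →
  j / N0 ^ k1 ∈ JN W N0 k2 (sh k1 q) g ∧ j % N0 ^ k1 ∈ JN W N0 k1 q (g * nM (((j / N0 ^ k1 : ℕ) : ℝ) / N0 ^ k2) * aM (-(k2 * Real.log N0)))

/-- **Row LSP** (short; from SUB, MON, YSP, JSP). SUB with `N1 = N0^k1`, `N2 = N0^k2`: the four sets of SUB are subsets of `YC`, `JN` by YSP, JSP; MON (1). -/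
def LSP_stmt : Prop := ∃ C0 : ℝ, 1 ≤ C0 ∧ ∀ (W : Set SL(2, ℝ)) (N0 k1 k2 : ℕ) (p q : ℕ → Bool) (Q1 Q2 : ℝ), 1 ≤ N0 → 0 ≤ Q1 → 0 ≤ Q2 →
  PQ W N0 k1 p q Q1 → PQ W N0 k2 (sh k1 p) (sh k1 q) Q2 → PQ W N0 (k1 + k2) p q (C0 * Q1 * Q2)

/-! ## Counting -/

/-- **Row CNB** (counting the cells; medium; from IR: CTF, CTB, YSP, JSP, RS.GLC). One block: `YC W N0 1 p h` with `p 0 = K`: cells of width `4/N0` in `4v ∈ [0, 4)` with a point of `FW Γ A b (K/N0)`: CTF with `e^(-k) = K/N0`: at most `C #A` cells of width `K/N0`, each meets at most `K + 2` of our cells.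
`JN W N0 1 q g`: `g nM x aM(-n) = g aM(-log K) nM(K x) aM(-k)`: CTB (`t = u = 0`, `e = 1`) for the pieces of length `1` of `[0, K)`. Then induction on `k` with YSP, JSP (`k1 = 1`): every cell of `YC .. k` is given by its first digit and a cell of `YC .. (k-1) (sh 1 p) h'`. -/
def CNB_stmt : Prop := ∀ Γ : Subgroup SL(2, ℝ), QU.SurfaceGroup Γ → ∃ C : ℝ, 1 ≤ C ∧ ∀ (b K : ℝ) (N0 : ℕ) (A : Finset SL(2, ℝ)) (W : Set SL(2, ℝ)), 0 < b → b ≤ 1 / 100 → 1 ≤ K → K ≤ N0 → 2 ≤ N0 → W ⊆ FW Γ A b (K / N0) →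
  ∀ (k : ℕ) (p : ℕ → Bool) (h : SL(2, ℝ)), ((YC W N0 k p h).card : ℝ) ≤ (C * K * A.card) ^ Kc p 0 k * (N0 : ℝ) ^ (k - Kc p 0 k) ∧
    ((JN W N0 k p h).card : ℝ) ≤ (C * K * A.card) ^ Kc p 0 k * (N0 : ℝ) ^ (k - Kc p 0 k)

/-- **Row BLQ** (one block; short; from HSB, CNB). -/
def BLQ_stmt : Prop := ∀ Γ : Subgroup SL(2, ℝ), QU.SurfaceGroup Γ → ∃ C : ℝ, 1 ≤ C ∧ ∀ (b K : ℝ) (N0 : ℕ) (A : Finset SL(2, ℝ)) (W : Set SL(2, ℝ)) (p q : ℕ → Bool), 0 < b → b ≤ 1 / 100 → 1 ≤ K → K ≤ N0 → 2 ≤ N0 → W ⊆ FW Γ A b (K / N0) →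
  PQ W N0 1 p q 1 ∧ (p 0 = true → q 0 = true → PQ W N0 1 p q ((C * K * A.card) ^ 2 / N0))

/-! ## The unstable leaves in a box -/

/-- the lower right entry of `lM w aM τ nM x` -/
def dX (w τ x : ℝ) : ℝ := Real.exp (-(τ / 2)) + w * x * Real.exp (τ / 2)

/-- the slope of the leaf of `lM w aM τ nM x` -/
def XX (w τ x : ℝ) : ℝ := x * Real.exp (τ / 2) / dX w τ x

/-- **Row MOB** (the holonomy is a Moebius map; short-medium; pure matrices, RS.GLC). `lM w aM τ nM x = [[e^(τ/2), x e^(τ/2)], [w e^(τ/2), d]]`, `d = dX`; the second column is `d (X, 1)`. `.. lM V = lM u aM τ' nM x'` with `u = (w e^(τ/2) + V d)/(e^(τ/2)(1 + V x))`, `e^(τ'/2) = e^(τ/2)(1 + V x)`, `x' e^(τ'/2) = X d`. Solve for `V`: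
`V = (u - w) e^(τ/2)/(d (1 - X u)) = -w e^(τ/2)/d + u (1 - w X) e^(τ/2)/(d (1 - X u))` and `(1 - w X) e^(τ/2) = 1/d` (determinant). -/
def MOB_stmt : Prop := ∀ (b0 w τ x V : ℝ), 0 < b0 → b0 ≤ 1 / 1000 → |w| ≤ b0 → |τ| ≤ b0 → |x| ≤ b0 → 0 ≤ V → V ≤ 4 →
  |dX w τ x - 1| ≤ 2 * b0 ∧ |XX w τ x| ≤ 2 * b0 ∧ ∃ u τ' x' : ℝ, -(1 / 10) ≤ u ∧ u ≤ 42 / 10 ∧ |τ'| ≤ 20 * b0 ∧ |x'| ≤ 2 * b0 ∧ lM w * aM τ * nM x * lM V = lM u * aM τ' * nM x' ∧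
    V = -(w * Real.exp (τ / 2) / dX w τ x) + u / (dX w τ x ^ 2 * (1 - XX w τ x * u))

open Classical in
/-- the cells `κ/N0^k` of the unstable coordinate `u'` (`u = 4u'`) of the box `z` with the future labels `p` -/
def Uz (W : Set SL(2, ℝ)) (N0 k : ℕ) (p : ℕ → Bool) (z : SL(2, ℝ)) : Finset ℤ :=
  (Finset.Ico (-((N0 ^ k : ℕ) : ℤ)) (2 * ((N0 ^ k : ℕ) : ℤ))).filter fun κ => ∃ u : ℝ, (κ : ℝ) ≤ u * N0 ^ k ∧ u * N0 ^ k < κ + 1 ∧ ∀ i < k, p i = true → z * lM (4 * u) * aM (i * Real.log N0) ∈ W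

/-- the reference points: `v = A' + (κ/N)/(d² (1 - 4X κ/N))` -/
def vk (N : ℕ) (w τ x : ℝ) (κ : ℤ) : ℝ := -(w * Real.exp (τ / 2) / dX w τ x) / 4 + (κ / N) / (dX w τ x ^ 2 * (1 - 4 * XX w τ x * (κ / N)))

/-- **Row UZC** (covering; medium; from MOB, RS.GLC). Let `c ∈ YC W N0 k p h`, `v = c/N0^k`, `V = 4v`; MOB gives `u, τ', x'`. For `i < k` with `p i = K` there is `v_i` in the ancestor cell of level `i + 1`, `|v - v_i| ≤ N0^(-(i+1))`, `h lM(4v_i) aM(in) ∈ W`. `z lM u aM(in) = γ h lM V aM(in) (aM τ' nM(x' e^(-in)))⁻¹` and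
`h lM V aM(in) = [h lM(4v_i) aM(in)] lM s`, `|s| ≤ 4/N0`. In the box of `y ∈ A`: `k1 lM s (aM τ' nM ..)⁻¹` with `bq b b (bK/N0) k1`: entries: diagonal within `2b` of `1`, upper right `≤ 2b`, lower left `≤ 1.01 (bK + 5)/N0 ≤ 2b (2(K + 10/b)/N0)`. So `κ = ⌊(u/4) N0^k⌋ ∈ Uz W2 ..`; the function `u' ↦ u'/(d²(1 - 4Xu'))` has derivative `≤ 2`. -/
def UZC_stmt : Prop := ∀ (Γ : Subgroup SL(2, ℝ)) (b K w τ x : ℝ) (N0 k : ℕ) (A : Finset SL(2, ℝ)) (W W2 : Set SL(2, ℝ)) (p : ℕ → Bool) (h z : SL(2, ℝ)) (γ : Γ), 0 < b → b ≤ 1 / 200 → 1 ≤ K → K ≤ N0 → 10 ≤ N0 → W ⊆ FW Γ A b (K / N0) → W2 = FW Γ A (2 * b) (2 * (K + 10 / b) / N0) →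
  |w| ≤ b / 1000 → |τ| ≤ b / 1000 → |x| ≤ b / 1000 → (γ : SL(2, ℝ)) * h = z * lM w * aM τ * nM x → ∀ c ∈ YC W N0 k p h, ∃ κ ∈ Uz W2 N0 k p z, |(c : ℝ) / ((N0 ^ k : ℕ) : ℝ) - vk (N0 ^ k) w τ x κ| ≤ 8 / ((N0 ^ k : ℕ) : ℝ)

/-- **Row UZN** (counting; short; from CNB). `u ∈ [-1, 2)`: with `u = v + m`, `m ∈ {-1, 0, 1}`, `z lM(4u) = (z lM(4m)) lM(4v)`, a point condition implies the cell conditions of `YC` (`κ = c + m N0^k`). -/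
def UZN_stmt : Prop := ∀ Γ : Subgroup SL(2, ℝ), QU.SurfaceGroup Γ → ∃ C : ℝ, 1 ≤ C ∧ ∀ (b K : ℝ) (N0 : ℕ) (A : Finset SL(2, ℝ)) (W : Set SL(2, ℝ)), 0 < b → b ≤ 1 / 100 → 1 ≤ K → K ≤ N0 → 2 ≤ N0 → W ⊆ FW Γ A b (K / N0) →
  ∀ (k : ℕ) (p : ℕ → Bool) (z : SL(2, ℝ)), ((Uz W N0 k p z).card : ℝ) ≤ 3 * ((C * K * A.card) ^ Kc p 0 k * (N0 : ℝ) ^ (k - Kc p 0 k))

/-- **Row RET** (returns of a long unstable leaf have different slopes; medium; from QU.DOB / the group count in CTB (helper31/IR/CTB.lean), RS.GLC). `N = N0^k = e^t`, `h_c = h lM(4c/N) aM t`, `γ h_c = z m`, `m = lM w aM τ nM x`. So `γ h = z m aM(-t) lM(-4c/N)`; with `g1 = aM t nM(-X0) z⁻¹`: `g1 γ h = [aM t (nM(-X0) m) aM(-t)] lM(-4c/N)`;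
`nM(-X0) m = [[.., (X - X0) d], [.., d]]`, so the conjugated matrix has the upper right entry `N (X - X0) d`, at most `2`, and all entries `≤ 3`; with the factor `lM(-4c/N)` all entries are `≤ 20`. So `γ` lies in a set of bounded cardinality: `g1 γ1 γ2⁻¹ g1⁻¹` is in a fixed compact set, `Γ` is cocompact and discrete. For a fixed `γ`: `h_(c') = h_c lM(4(c' - c))`,
so `lM(4(c' - c)) = m⁻¹ m'` is near `1`: `c' = c`. -/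
def RET_stmt : Prop := ∀ Γ : Subgroup SL(2, ℝ), QU.SurfaceGroup Γ → ∃ C : ℝ, 1 ≤ C ∧ ∀ (N0 k : ℕ) (h z : SL(2, ℝ)) (X0 : ℝ) (T : Finset ℕ), 2 ≤ N0 →
  (∀ c ∈ T, c < N0 ^ k ∧ ∃ (γ : Γ) (w τ x : ℝ), |w| ≤ 1 / 1000 ∧ |τ| ≤ 1 / 1000 ∧ |x| ≤ 1 / 1000 ∧ (γ : SL(2, ℝ)) * (h * lM (4 * ((c : ℝ) / N0 ^ k)) * aM (k * Real.log N0)) = z * lM w * aM τ * nM x ∧ |XX w τ x - X0| ≤ 1 / (N0 : ℝ) ^ k) →
    (T.card : ℝ) ≤ C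

/-! ## The window -/

/-- **Row BCN** (few bad digits; medium; from BDX (helper65/T1/SpecN.lean), RET). `N = N0^k`. Fix `z ∈ Z`. If `#(U z) < G` no `c` is bad for `z`. Otherwise `θ = G/#(U z) ≤ 1`, `T0 = H/2`, `θ T0 ≥ G H/(2 Um) ≥ 1`: BDX: the number of the cells `[j/N, (j+1)/N]` which contain a bad `X = 4 XX` (`|4 XX| ≤ 1/8` as `|XX| ≤ 1/400`) is at most
`C N⁴ (1 + log N)² #U⁻³ θ⁻⁷ T0^(-1/2) ≤ 2C N⁴ (1 + log N)² Um⁴ G⁻⁷ H^(-1/2)`. For each cell the `XX` are within `1/N` of one point, so RET: at most `C` values of `c`. -/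
def BCN_stmt : Prop := ∀ Γ : Subgroup SL(2, ℝ), QU.SurfaceGroup Γ → ∃ C : ℝ, 1 ≤ C ∧ ∀ (Z : Finset SL(2, ℝ)) (U : SL(2, ℝ) → Finset ℤ) (N0 k : ℕ) (h : SL(2, ℝ)) (Um H G : ℝ) (B : Finset ℕ), 2 ≤ N0 → 2 ≤ H → H ≤ N0 ^ k → 0 < G → 0 ≤ Um → 2 * Um ≤ G * H →
  (∀ z ∈ Z, ((U z).card : ℝ) ≤ Um ∧ ∀ κ ∈ U z, |κ| ≤ 2 * ((N0 ^ k : ℕ) : ℤ)) →
  (∀ c ∈ B, c < N0 ^ k ∧ ∃ z ∈ Z, ∃ (γ : Γ) (w τ x : ℝ), |w| ≤ 1 / 1000 ∧ |τ| ≤ 1 / 1000 ∧ |x| ≤ 1 / 1000 ∧ (γ : SL(2, ℝ)) * (h * lM (4 * ((c : ℝ) / N0 ^ k)) * aM (k * Real.log N0)) = z * lM w * aM τ * nM x ∧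
    ∃ t : ℝ, H / 2 ≤ |t| ∧ |t| ≤ 4 * (N0 : ℝ) ^ k ∧ G ≤ ‖NE (N0 ^ k) (U z) t (4 * XX w τ x)‖) →
    (B.card : ℝ) ≤ C * Z.card * Um ^ 4 * ((N0 : ℝ) ^ k) ^ 4 * H ^ (-(1 / 2) : ℝ) * (1 + Real.log ((N0 : ℝ) ^ k)) ^ 2 / G ^ 7

/-- **Row LWN** (THE GAIN; medium-long; from SUB, HSB, MON, SCR, YSP, JSP, CNB, UZC, UZN, BCN, IR.NET, RS.GLC). Exponents of `N0`; `ε1` small, `N0` large: `C K2 #A ≤ N0^(ρ + ε1)`, `K2 = 2(1 + 10/b)`. `k = 101 r`, `N = N0^k`; `Z` from NET for `b/1000`. `p1 = sh k p`; `K_X = Kc p k (2k) ≤ 2r`. `U z = Uz W2 N0 k p1 z`, `Um = 3 N0^((ρ+ε1) K_X + k - K_X)` (UZN), `G = N0^(-r) N0^(k - K_X)`, `H = N0^(100 r)`.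
Fix `h, g`. `B` = the bad `c` of BCN (with this `U`, for `h`): `#B ≤ N0^(64 r + 8r(ρ+ε1) + ε1 r)`: `4(k - K_X) + 4k - 50 r - 7(k - K_X) + 7r = 3 K_X + k - 43 r ≤ 64 r` (`2 Um ≤ G H`). `YC W N0 (2k) p h = (cells with first digits in B) ∪ (the others)`; MON (2).
BAD: SUB with `Q2 = 1` (HSB) and `Q1 = #B/N · #J_d` (HSB): `#J_d ≤ #JN W N0 k q g_d ≤ N0^((ρ+ε1) k + #U_q[0,k))` (CNB), `#U_q[0,k) ≤ Kc p 0 k + UU ≤ r + UU`: exponent `≤ 64 r - 101 r + r + UU + 110 r (ρ+ε1)`.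
GOOD: SUB with `Q1 = 1` and `Q2`: SCR for `Cs` = the fine digits (`⊆ YC W N0 k p1 h_c`, YSP), the `v_κ` of UZC (NET for `h_c`), `J` = `J⁺ ⊆ JN W N0 k (sh k q) g`: `Σ_κ e((j-j') v_κ)` has the modulus of `NE N (U z) ((j-j')/d²) (4X)` (`Nex = e1`) and `c` is good: `< G` for `|j - j'| ≥ H` (`d² ∈ [1/2, 2]`, `|t| ≤ 4N`). `D ≤ 3 N0^(100r(ρ+ε1) + #U_q[k, k+100r))`: `j, j'` with
`|j - j'| < N0^(100r)` have neighbouring coarse digits `j / N0^(100r)`, and the fine digits are in `JN W N0 (100r) (sh k q) g'` (JSP with `k1 = 100r`, `k2 = r`). `#U_q[k, k+100r) ≤ Kc p k (k+100r) + UU`. First term: `-k + (k - K_X) + Kc p k (k+100r) + UU = -Kc p (201r) (202r) + UU ≤ -r/2000 + UU`. Second: `-k + #U_q[k,2k) + (k - K_X) - r ≤ UU - r`. Constants and `log²` are `≤ N0^(ε1 r)`. -/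
def LWN_stmt : Prop := ∀ Γ : Subgroup SL(2, ℝ), QU.SurfaceGroup Γ → ∀ b ε : ℝ, 0 < b → b ≤ 1 / 200 → 0 < ε → ∃ n1 : ℕ, ∀ (N0 : ℕ) (ρ : ℝ) (A : Finset SL(2, ℝ)) (W : Set SL(2, ℝ)), n1 ≤ N0 → 0 ≤ ρ → ρ ≤ 1 / 1000 → (A.card : ℝ) ≤ (N0 : ℝ) ^ ρ → W ⊆ FW Γ A b (1 / N0) →
  ∀ (p q : ℕ → Bool) (r : ℕ), Win p 0 r → PQ W N0 (202 * r) p q ((N0 : ℝ) ^ ((UU p q 0 (202 * r) : ℝ) - r / 2000 + (ε + 500 * ρ) * r))

/-- **Row LTH** (THE LEAF THEOREM; medium; from LWN, BLQ, LSP, MON). By induction on `Cut` (for the labels from `s` on: state it for `Cut p s t L` and `PQ W N0 (t - s) (sh s p) (sh s q)`), with the exponent `E = ½(UU - KK) - L/808000 + (ε + 500ρ)(t - s)`; one block: `1` or, for `KK`, `(C#A)²/N0 ≤ N0^(-1 + 2(ρ+ε1))` (BLQ, `K = 1`); the factor `C0` of LSP is `≤ N0^ε1`. A window: both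
the product of the one block bounds (exponent `-KK + (2ρ + 3ε1) 202 r`) and LWN; so also their geometric mean: `½(UU - KK) - r/4000 + ..`, and `202 r/808000 = r/4000`. Finally `UU - KK = M - Kc p - Kc q`. -/
def LTH_stmt : Prop := ∀ Γ : Subgroup SL(2, ℝ), QU.SurfaceGroup Γ → ∀ b ε : ℝ, 0 < b → b ≤ 1 / 200 → 0 < ε → ∃ n1 : ℕ, ∀ (N0 : ℕ) (ρ : ℝ) (A : Finset SL(2, ℝ)) (W : Set SL(2, ℝ)), n1 ≤ N0 → 0 ≤ ρ → ρ ≤ 1 / 1000 → (A.card : ℝ) ≤ (N0 : ℝ) ^ ρ → W ⊆ FW Γ A b (1 / N0) →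
  ∀ (p q : ℕ → Bool) (M L : ℕ), Cut p 0 M L → PQ W N0 M p q ((N0 : ℝ) ^ (((M : ℝ) - Kc p 0 M - Kc q 0 M) / 2 - L / 808000 + (ε + 500 * ρ) * M))

/-! ## C. The choice of the windows -/

/-- **Row CVR** (many windows; medium; pure combinatorics). `y0 = 10^5`. Deep points: `x < M/2`, no `K` in `[x, x + y0)`. If `M < 10^6`.. let `y0` and the constants be such that small `M` are trivial: if there is a deep `x` and `Kc p (M/2) M ≥ M/100` then `M ≥ y0`. For deep `x` let `J(x) = [s, e) ∋ x`, `e ≤ M`, be an interval of maximal length `y` with `2000 Kc p s e ≤ e - s` (`[x, x + y0)` is one, so `y ≥ y0`;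
`x + y0 ≤ M` as otherwise `[x, M)` has no `K`). `r = ⌊y/1000⌋ ≥ 100`. `e + r ≤ M`: otherwise `Kc p (M/2) M ≤ y/2000 + M/1000 < M/100`. Maximality: `2000 Kc p s (e + r) > e + r - s`, so `2000 Kc p e (e + r) > r`. `Kc p s e ≤ y/2000 ≤ r`. `201 r ≤ y`. So `Win p (e - 201 r) r`, contained in `J'(x) = [s, e + r)`, `|J'| ≤ 1.001 y`, `202 r ≥ y/5`.
Choose greedily (largest first) `x_1, x_2, ..` with disjoint `J'(x_i)`: every deep `x` is in an interval `J'(x_i)` or within `|J'(x_i)|·1.01` of it, so `#deep ≤ Σ 3.1 |J'(x_i)| ≤ 16 Σ 202 r_i`. Sort the windows and put single blocks between them: `Cut p 0 M L`, `L = Σ 202 r_i`. -/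
def CVR_stmt : Prop := ∃ y0 : ℕ, 1 ≤ y0 ∧ ∀ (M : ℕ) (p : ℕ → Bool) (S : Finset ℕ), (∀ x ∈ S, 2 * x < M ∧ ∀ i < y0, p (x + i) = false) → M ≤ 100 * Kc p (M / 2) M → ∃ L : ℕ, Cut p 0 M L ∧ S.card ≤ 20 * L

end

end Pool.Agent.T1
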