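import Pool.Agent.helper52.T1.SpecS
import Pool.Agent.helper46.T1.SpecP

/-!
# MP_07c750, PROJECT T1: block F (labels, layer cake, choice of K, the end), rows `t1:XXX`, and the INTERFACE `UPE` to block E

RULES as in `SpecS.lean` (`import Pool.Agent.helper52.T1.SpecF`). `β, α` are fixed profiles; the law of `g` for the eigenfunction `φ` is `r |pf β α r φ g|² dg` on `dG F`; `LW` = the law of labels, `EX` = expectations.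
-/

open scoped MatrixGroups ContDiff Topology UpperHalfPlane ComplexConjugate
open UpperHalfPlane MeasureTheory Filter Set

namespace Pool.Agent.T1

open Pool.Agent.RS Pool.Agent.MS Pool.Agent.HV
open Pool.Agent.EN (XG MG mkX mkM fl pr)
open Pool.Agent.ER (Low LowJ)

noncomputable section

/-- labels `Fin M → Bool` as labels `ℕ → Bool` -/
def ex {M : ℕ} (p : Fin M → Bool) (i : ℕ) : Bool := if h : i < M then p ⟨i, h⟩ else false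

/-- one free label in front -/
def pre (q : ℕ → Bool) (i : ℕ) : Bool := if i = 0 then false else q (i - 1)

/-- the probability that the random labels of `g` (independent, `K` with probability `κ (g aM (i log N0))`) are in `S` -/
def Ps (κ : SL(2, ℝ) → ℝ) (N0 M : ℕ) (S : Finset (Fin M → Bool)) (g : SL(2, ℝ)) : ℝ :=
  ∑ p ∈ S, ∏ i : Fin M, if p i = true then κ (g * aM ((i : ℕ) * Real.log N0)) else 1 - κ (g * aM ((i : ℕ) * Real.log N0))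

/-- expectation of a function of `g` -/
def EX (F : Set ℍ) (β α : ℝ → ℝ) (r : ℝ) (φ : ℍ → ℂ) (f : SL(2, ℝ) → ℝ) : ℝ := r * iR F (fun g => f g * ‖pf β α r φ g‖ ^ 2)

/-- the law of the labels over `[t, t + M log N0)` -/
def LW (F : Set ℍ) (β α : ℝ → ℝ) (r : ℝ) (φ : ℍ → ℂ) (κ : SL(2, ℝ) → ℝ) (N0 M : ℕ) (t : ℝ) (S : Finset (Fin M → Bool)) : ℝ := EX F β α r φ (fun g => Ps κ N0 M S (g * aM t))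

/-- the change of the membership after the time `u` -/
def bad (κ : SL(2, ℝ) → ℝ) (u : ℝ) (g : SL(2, ℝ)) : ℝ := κ g * (1 - κ (g * aM u)) + κ (g * aM u) * (1 - κ g)

/-- the sum over `u = 0, n, .., y0 n` plus the average over `[0, n]`, `n = log N0` -/
def Bd (κ : SL(2, ℝ) → ℝ) (N0 y0 : ℕ) (g : SL(2, ℝ)) : ℝ := ∑ i ∈ Finset.range (y0 + 1), bad κ ((i : ℕ) * Real.log N0) g + (∫ u in (0 : ℝ)..Real.log N0, bad κ u g) / Real.log N0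

/-- a cutoff for few boxes -/
structure CO (Γ : Subgroup SL(2, ℝ)) (a Cκ ρ : ℝ) (N0 : ℕ) (A : Finset SL(2, ℝ)) (κ κa κn κl : SL(2, ℝ) → ℝ) : Prop where
  ca : (A.card : ℝ) ≤ (N0 : ℝ) ^ ρ
  sf : SF Γ κ κa κn κl
  k01 : ∀ g, 0 ≤ κ g ∧ κ g ≤ 1
  ev : ∀ g, κ (-g) = κ g
  kn : ∀ g, |κn g| ≤ Cκ
  kl : ∀ g, |κl g| ≤ Cκ * N0
  sp : ∀ g, κ g ≠ 0 → g ∈ FW Γ A (16 * a) (1 / N0)

/-! ## Interfaces -/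

/-- **Row UPE** (INTERFACE to block E; short-medium; from Pool.Agent.helper47.T1.SpecE4 `QPV` (proved), IR.LCK, RS.GLC; adapt the proof of IR.HMG). `δ = min (ε/20) (1/100)`, `w ≤ κ/2`, `1/100`, `lam = (π/4) N0^(M+1)` (so `π/(4 lam) = 1/N0^(M+1)`), `n' = M log N0`, `Bn = Bn' = C3`, `Bl = Bl' = C3 N0^M`, `Q = η0 = δ²/128`, `B0 ≥ 8 K C3/δ`, `100`
(`K Bl ≤ δ lam`; `K Bl' e^t ≤ K C3 r^w r^(1 - w)/N0 ≤ δ r`; `t ≤ (1 - w) log r ≤ log (r/lam)`), `s ≥ log (25 N0)`, `log (K C3/δ)`; `J0 = ⌈N0^(M+1)/4⌉₊`; `Dp = {g | ∃ x τ o e, |x| ≤ 4/N, |τ| ≤ 3/5, |o| ≤ r^(-1/5), Ψ' (e g nM x aM τ lM o aM(-n')) ≠ 0}` (open, invariant); hloc: LCK (`2 r^(-1/4) ≤ r^(-1/5)`, `r^(-1/4) ≤ 1/(100 N)` for `r ≥ r2`). -/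
def UPE_stmt : Prop := ∀ β α : ℝ → ℝ, BB (1 / 4) β → BA (1 / 8) α → ∃ w : ℝ, 0 < w ∧ w ≤ 1 / 100 ∧ ∀ (Γ : Subgroup SL(2, ℝ)) (F : Set ℍ), QU.SurfaceGroup Γ → QU.NiceDom Γ F → ∀ ε C3 : ℝ, 0 < ε → 1 ≤ C3 → ∃ η0 B0 : ℝ, 0 < η0 ∧
  ∀ N0 : ℕ, B0 ≤ N0 → ∃ r2 : ℝ, 1 ≤ r2 ∧ ∀ (r : ℝ) (M : ℕ) (φ : ℍ → ℂ), r2 ≤ r → 1 ≤ M → (N0 : ℝ) ^ (M + 1) ≤ r ^ w → EigL Γ (1 / 4 + r ^ 2) φ → nn F φ = 1 →
    ∀ Ψ Ψa Ψn Ψl Ψ' Ψa' Ψn' Ψl' : SL(2, ℝ) → ℝ, SF Γ Ψ Ψa Ψn Ψl → SF Γ Ψ' Ψa' Ψn' Ψl' → (∀ g, 0 ≤ Ψ g ∧ Ψ g ≤ 1) → (∀ g, 0 ≤ Ψ' g ∧ Ψ' g ≤ 1) →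
      (∀ g, |Ψn g| ≤ C3) → (∀ g, |Ψl g| ≤ C3 * (N0 : ℝ) ^ M) → (∀ g, |Ψn' g| ≤ C3) → (∀ g, |Ψl' g| ≤ C3 * (N0 : ℝ) ^ M) →
      IR.LFC Ψ Ψ' (M * Real.log N0) (1 / (N0 : ℝ) ^ (M + 1)) (r ^ (-(1 / 5) : ℝ)) η0 →
        ∀ t : ℝ, w * Real.log r ≤ t → t ≤ (1 - w) * Real.log r → EX F β α r φ (fun g => Ψ (g * aM t) + Ψ' (g * aM t)) ≤ 1 + ε

/- The interface to block P is `TP.PDF_stmt` (helper46/T1/SpecP.lean). -/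

/-! ## Labels -/

/-- **Row PSL** (smoothness of `Ps`; short-medium; from IR.SFP). Every factor `κ (g aM(in))` is `SF` with the derivatives `κa(..)`, `e^(-in) κn(..)`, `e^(in) κl(..)` (SFP), `1 - κ` too, products and sums. `Ps` is affine in each `κ_i = κ (g aM(in))`, with the partial derivative (sum over `p ∈ S` with `p i = K` minus sum with `p i = U` of the products over `j ≠ i`) of absolute value `≤ 1`, as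
`Σ_(all p) ∏ = 1`. So `|Ψn| ≤ Σ_i e^(-in) Cκ ≤ 2 Cκ`, `|Ψl| ≤ Σ_(i < M) N0^i Cκ N0 ≤ 2 Cκ N0^M`. (Third part: total mass `1`, additivity.) -/
def PSL_stmt : Prop := ∀ (Γ : Subgroup SL(2, ℝ)) (κ κa κn κl : SL(2, ℝ) → ℝ) (Cκ : ℝ) (N0 M : ℕ) (S : Finset (Fin M → Bool)), SF Γ κ κa κn κl → (∀ g, 0 ≤ κ g ∧ κ g ≤ 1) → (∀ g, |κn g| ≤ Cκ) → (∀ g, |κl g| ≤ Cκ * N0) → 2 ≤ N0 → 0 ≤ Cκ →
  (∃ Ψa Ψn Ψl : SL(2, ℝ) → ℝ, SF Γ (Ps κ N0 M S) Ψa Ψn Ψl ∧ (∀ g, |Ψn g| ≤ 2 * Cκ) ∧ (∀ g, |Ψl g| ≤ 2 * Cκ * (N0 : ℝ) ^ M)) ∧ (∀ g, 0 ≤ Ps κ N0 M S g ∧ Ps κ N0 M S g ≤ 1) ∧ ∀ g, Ps κ N0 M Finset.univ g = 1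

/-- **Row FLA** (from the condition `JC` to labels; medium; pure matrices, RS.GLC; compare helper62/HF/LCG.lean, helper95/IR/GEO.lean). `A'` = the `± y aM τ_i`, `y ∈ A`, `τ_i` the multiples of `a` in `[-1, 1]` (`-1` as an element of `SL(2, ℝ)`), `C = 2 (2/a + 3)`. First part: `τ_i = 0`. Second: `N = N0^(M+1)`, `m = M - i ≥ 1`.
`k aM(-mn) = e g lM(lu) nM(X) aM τ lM o aM(-mn)`, `X = j/N + x`; `lM(lu) nM X = nM X' aM τ'' lM o''`, `X' = X/(1 + luX)`, `τ'' = -2 log(1 + luX)`, `|X' - X| ≤ l0 ≤ 1/(100N)`; so `k aM(-mn) = e g nM X' aM(-mn) aM(τ + τ'') lM(o')`, `|o'| ≤ 4 l0`, `|τ + τ''| ≤ 0.61`. It is in the box of `y ∈ A` (after `γ`): `y⁻¹ γ k aM(-mn) = b1`, so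
`γ g nM X' aM(-mn) = e y b1 lM(-o') aM(-(τ + τ'')) = (e y aM(-τ_i)) [aM τ_i b1 lM(-o') aM(-(τ + τ''))]` with `|τ_i - (τ + τ'')| ≤ a`: the bracket satisfies `bq (40a) (40a) (40a/N0)` (`e^0.61 · 16 ≤ 30`). The point `x* = X' + s0/N` (`s0 = N/2`) is in `[0.15, 0.85]`, `j' = ⌊x* N⌋`, all its ancestor cells contain `x*`. Labels: `pre q` at the place `i + 1` belongs to the time `-(M + 1 - (i + 1)) n`. -/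
def FLA_stmt : Prop := ∀ a : ℝ, 0 < a → a ≤ 1 / 8000 → ∃ C : ℝ, 1 ≤ C ∧ ∀ (Γ : Subgroup SL(2, ℝ)) (N0 : ℕ) (A : Finset SL(2, ℝ)), 1 / a ≤ N0 → ∃ A' : Finset SL(2, ℝ), (A'.card : ℝ) ≤ C * A.card ∧ FW Γ A (16 * a) (1 / N0) ⊆ FW Γ A' (40 * a) (1 / N0) ∧
  ∀ (M : ℕ) (q : ℕ → Bool) (g : SL(2, ℝ)) (j : ℤ) (l l0 : ℝ), 1 ≤ M → 0 ≤ l → l ≤ l0 → l0 ≤ 1 / (100 * (N0 : ℝ) ^ (M + 1)) →
    IR.JC {h | ∀ i < M, q i = true → h * aM (-(M * Real.log N0)) * aM (i * Real.log N0) ∈ FW Γ A (16 * a) (1 / N0)} (1 / (N0 : ℝ) ^ (M + 1)) l l0 g j →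
      ∃ j' ∈ JN (FW Γ A' (40 * a) (1 / N0)) N0 (M + 1) (pre q) (g * nM (-(((N0 ^ (M + 1) / 2 : ℕ) : ℝ) / (N0 : ℝ) ^ (M + 1)))), |j + ((N0 ^ (M + 1) / 2 : ℕ) : ℤ) - (j' : ℤ)| ≤ 8

/-- **Row FLQ** (the leaf inequality for sets of labels; medium; from LTH, MON, FLA, PSL). `Ps .. 𝒫 (g' lM v) ≠ 0` gives `p ∈ 𝒫` with `g' lM v aM(in) ∈ FW Γ A (16a) (1/N0) ⊆ W` for all `i < M`, `p i = K`: so `v/4 ∈ cel N (YC W N0 (M+1) (ex p) g')`, `N = N0^(M+1)`, `W = FW Γ A' (40a) (1/N0)` (FLA). `J` (shifted by `s0`) is in the `8`-neighbourhood of the union of the `JN W N0 (M+1) (pre (ex q)) g''` over `q ∈ 𝒬`.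
`e^(iπjv/2) = e1 (j v/4)`: the integral over `v ∈ [0, 1]` is `4` times the one over `v/4`. `Cut (ex p) 0 M L` gives `Cut (ex p) 0 (M+1) L`; `Kc (ex p) 0 (M+1) = Kc (ex p) 0 M`, `Kc (pre q) 0 (M+1) = Kc q 0 M`. LTH (`b = 40a`, `ρ' = ρ + ε/1000`, `#A' ≤ C #A`): every pair has `Q ≤ N0^((1/2 - x) M + 1/2 + (ε/2 + 500ρ)(M + 1) + ..)`. MON (2), (3) (or Cauchy-Schwarz): factor
`4 · 17² · 2^M · 4^M ≤ N0^(ε M/4 + 1)` for `N0 ≥ n1`. -/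
def FLQ_stmt : Prop := ∀ Γ : Subgroup SL(2, ℝ), QU.SurfaceGroup Γ → ∀ a ε : ℝ, 0 < a → a ≤ 1 / 8000 → 0 < ε → ∃ n1 : ℕ, ∀ (N0 : ℕ) (ρ : ℝ) (A : Finset SL(2, ℝ)) (κ : SL(2, ℝ) → ℝ), n1 ≤ N0 → 0 ≤ ρ → ρ ≤ 1 / 2000 → (A.card : ℝ) ≤ (N0 : ℝ) ^ ρ → (∀ g, κ g ≠ 0 → g ∈ FW Γ A (16 * a) (1 / N0)) →
  ∀ (M : ℕ) (S S' : Finset (Fin M → Bool)) (x l0 : ℝ), 1 ≤ M → 0 ≤ x → x ≤ 2 → 0 ≤ l0 → l0 ≤ 1 / (100 * (N0 : ℝ) ^ (M + 1)) → (∀ p ∈ S, ∀ q ∈ S', ∃ L : ℕ, Cut (ex p) 0 M L ∧ x * M ≤ ((Kc (ex p) 0 M : ℝ) + Kc (ex q) 0 M) / 2 + L / 808000) →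
    IR.LFC (Ps κ N0 M S) (Ps κ N0 M S') (M * Real.log N0) (1 / (N0 : ℝ) ^ (M + 1)) l0 ((N0 : ℝ) ^ ((1 / 2 - x + ε + 500 * ρ) * M + 3))

open Classical in
/-- the deep points in the first half -/
def Dp (y0 M : ℕ) (p : ℕ → Bool) : Finset ℕ := (Finset.range M).filter fun x => 2 * x < M ∧ ∀ i < y0, p (x + i) = false

open Classical in
/-- the weight of the labels `p` (divided by `M`, at most `1`) -/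
def VV (y0 M : ℕ) (p : ℕ → Bool) : ℝ := ((Kc p 0 M : ℝ) / 2 + (if M ≤ 100 * Kc p (M / 2) M then ((Dp y0 M p).card : ℝ) / 16160000 else 0)) / M

open Classical in
/-- **Row KLW** (the two-set inequality for the labels; medium; from UPE, FLQ, PSL, CVR). `y0` = the one of CVR. `w` = the one of UPE. If `VV y0 M p ≥ a'`, `Kc q 0 M/(2M) ≥ b'`, `a' + b' ≥ 1/2 + 2ε + 500ρ`: CVR gives `L` with `Cut (ex p) 0 M L` and `L ≥ #Dp/20` (in the case `M ≤ 100 Kc ..`; otherwise only single blocks, `L = 0`), so FLQ with `x = 1/2 + 2ε + 500ρ` (and `ε`): `Q ≤ N0^(-εM + 3) ≤ η0` for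
`M ≥ M0` (`M0` depends on `ε, η0, N0`). `l0 = r^(-1/5) ≤ 1/(100 N0^(M+1))` for `r ≥ r2` (`N0^(M+1) ≤ r^(1/100)`). UPE with `C3 = 2 Cκ`. (`ex p` of a label set is needed for `Dp`: `ex p i = U` for `i ≥ M`.) -/
def KLW_stmt : Prop := ∃ y0 : ℕ, 1 ≤ y0 ∧ ∀ β α : ℝ → ℝ, BB (1 / 4) β → BA (1 / 8) α → ∃ w : ℝ, 0 < w ∧ w ≤ 1 / 100 ∧ ∀ (Γ : Subgroup SL(2, ℝ)) (F : Set ℍ), QU.SurfaceGroup Γ → QU.NiceDom Γ F → ∀ a ε Cκ : ℝ, 0 < a → a ≤ 1 / 8000 → 0 < ε → 1 ≤ Cκ →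
  ∃ n1 : ℕ, ∀ (N0 : ℕ) (ρ : ℝ) (A : Finset SL(2, ℝ)) (κ κa κn κl : SL(2, ℝ) → ℝ), n1 ≤ N0 → 0 ≤ ρ → ρ ≤ 1 / 2000 → CO Γ a Cκ ρ N0 A κ κa κn κl → ∃ (r2 : ℝ) (M0 : ℕ), 1 ≤ r2 ∧ 1 ≤ M0 ∧
    ∀ (r : ℝ) (M : ℕ) (φ : ℍ → ℂ), r2 ≤ r → M0 ≤ M → (N0 : ℝ) ^ (M + 1) ≤ r ^ w → EigL Γ (1 / 4 + r ^ 2) φ → nn F φ = 1 → ∀ t a' b' : ℝ, w * Real.log r ≤ t → t ≤ (1 - w) * Real.log r → 1 / 2 + 2 * ε + 500 * ρ ≤ a' + b' →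
      LW F β α r φ κ N0 M t (Finset.univ.filter fun p : Fin M → Bool => a' ≤ VV y0 M (ex p)) + LW F β α r φ κ N0 M t (Finset.univ.filter fun q : Fin M → Bool => b' ≤ (Kc (ex q) 0 M : ℝ) / (2 * M)) ≤ 1 + ε

open Classical in
/-- **Row PSE** (expectations of labels; short; pure: a product measure on `Fin M → Bool`, by induction or `Finset.prod_univ_sum` / `Fintype.piFinset`). -/
def PSE_stmt : Prop := ∀ (κ : SL(2, ℝ) → ℝ) (N0 M : ℕ) (g : SL(2, ℝ)), (∀ g, 0 ≤ κ g ∧ κ g ≤ 1) →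
  (∀ S : Finset (Fin M → Bool), 0 ≤ Ps κ N0 M S g ∧ Ps κ N0 M S g = ∑ p ∈ S, Ps κ N0 M {p} g) ∧ ∑ p : Fin M → Bool, Ps κ N0 M {p} g = 1 ∧
  ∑ p : Fin M → Bool, Ps κ N0 M {p} g * Kc (ex p) 0 M = ∑ i ∈ Finset.range M, κ (g * aM ((i : ℕ) * Real.log N0))

open Classical in
/-- **Row LBL** (many labels have many deep points and many `K` in the second half; long; SPLIT IT: helper94 (application), helper63 (pure lemma LTR); from TP.PDF, TP.PAV, PSF of helper46, MS.INW, MS.NM3, PSE). Let `n = log N0`, `W = w0 log r`, `c2, c3` from PDF, `f = av κ W (g aM t)`, `f' = av κ W (g aM(t + M'n))`.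
PDF at the time `t + M'n` and INW for `G(av κ W ·)` (`G` smooth, `0` on `x ≤ 1 - 2c2`, `1` on `x ≥ 1 - c2`): `P(f ≥ 1 - c2) ≤ E G(f) ≤ E G(f') + o(1) ≤ P(f' > 1 - 2c2) + o(1)`, so `P(f < 1 - c2 and f' ≥ 1/25) ≥ P(1/25 ≤ f' ≤ 1 - 2c2) - o(1) ≥ c3/2`.
INW for each `bad κ u` (`u ∈ [0, y0 n]`; integrate over `u`): `EX (Bd (g aM s)) ≤ 2δ1` for all `s ∈ [w0 log r, (1 - w0) log r]`; Markov: outside of probability `c3/4` the average over `i < 2M'` of `Bd (g aM(t + in))` is `≤ c2/100` (`δ1 = c2 c3/10^4`). `|x - y| ≤ x(1 - y) + y(1 - x)`: the averages `f`, `f'` are the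
averages of `κ_i = κ(g aM(t + in))` over the first (second) half up to `c2/50 + O(1/M')`. For such `g` (labels independent): `E #Dp ≥ Σ_(i < M') (1 - κ_i) - Σ_i Σ_(1 ≤ j < y0) (1 - κ_i) κ_(i+j) ≥ c2 M'/2`, so `P(#Dp ≥ c2 M'/4) ≥ c2/4`; `Σ κ_i ≥ M'/30` over the second half, Chebyshev: `P(50 Kc < M') ≤ C/M'`. `c4 = c2/8`, `c5 = c2 c3/32`. -/
def LBL_stmt : Prop := ∀ β α : ℝ → ℝ, BB (1 / 4) β → BA (1 / 8) α → ∀ (w0 : ℝ) (y0 : ℕ), 0 < w0 → w0 ≤ 1 / 100 → 1 ≤ y0 → ∃ c4 c5 δ1 : ℝ, 0 < c4 ∧ 0 < c5 ∧ 0 < δ1 ∧ ∀ (Γ : Subgroup SL(2, ℝ)) (F : Set ℍ), QU.SurfaceGroup Γ → QU.NiceDom Γ F → ∃ a1 : ℝ, 0 < a1 ∧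
  ∀ a Cκ : ℝ, 0 < a → a ≤ a1 → 1 ≤ Cκ → ∃ n1 : ℕ, ∀ (N0 : ℕ) (A : Finset SL(2, ℝ)) (κ κa κn κl : SL(2, ℝ) → ℝ), n1 ≤ N0 → CO Γ a Cκ (1 / 1000) N0 A κ κa κn κl → ∃ R0 : ℝ, 1 ≤ R0 ∧
    ∀ (r t1 : ℝ) (φ : ℍ → ℂ), R0 ≤ r → EigL Γ (1 / 4 + r ^ 2) φ → nn F φ = 1 → Real.sqrt (Real.log r) ≤ t1 → t1 ≤ Real.log r - Real.sqrt (Real.log r) →
      1 / 5 ≤ EX F β α r φ (fun g => κ (g * aM t1)) → EX F β α r φ (fun g => Bd κ N0 y0 (g * aM t1)) ≤ δ1 →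
      ∀ (t : ℝ) (M' : ℕ), w0 * Real.log r ≤ t → t ≤ (1 - 4 * w0) * Real.log r → M' * Real.log N0 ≤ w0 * Real.log r → w0 * Real.log r < (M' + 1) * Real.log N0 →
        c5 ≤ LW F β α r φ κ N0 (2 * M') t (Finset.univ.filter fun p : Fin (2 * M') → Bool => c4 * (2 * M' : ℕ) ≤ (Dp y0 (2 * M') (ex p)).card ∧ 2 * M' ≤ 100 * Kc (ex p) (2 * M' / 2) (2 * M'))

/-- **Row FN1** (the inequality for an eigenfunction; medium; from KLW, LYC, LBL, PSE, MS.INW, MS.NM3). `y0`, `w` from KLW, `w0 = w/3`, `c4, c5, δ1` from LBL, `c6 = c4 c5/16160000`, `a1 ≤ 1/8000`. KLW for `ε' = ε/20`. `t = (log r)/2`, `M' = ⌊w0 log r/log N0⌋`, `M = 2M'`, `N0^(M+1) ≤ r^w`, `M ≥ M0`. `P p = LW {p}`, `V p = VV y0 M (ex p)`,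
`W p = Kc (ex p) 0 M/(2M)`: `ΣP` is within `ε'` of `1` (NM3), `LW S = Σ_(p ∈ S) P p` (EX is additive: everything is bounded and continuous); LYC with `s = 1/2 + 2ε' + 500ρ`: `ΣPV + ΣPW ≤ s + 5ε'`. `2 ΣPW = (1/M) Σ_(i < M) EX κ(g aM(t + in)) ≥ EX κ(g aM t1) - ε'` (INW, all times in `[√log r, log r - √log r]`, `r` large),
`ΣPV ≥ ΣPW + Σ_(EE) P #Dp/(16160000 M) ≥ ΣPW + c6`. -/
def FN1_stmt : Prop := ∃ y0 : ℕ, 1 ≤ y0 ∧ ∀ β α : ℝ → ℝ, BB (1 / 4) β → BA (1 / 8) α → ∃ c6 δ1 : ℝ, 0 < c6 ∧ 0 < δ1 ∧ ∀ ε : ℝ, 0 < ε → ∀ (Γ : Subgroup SL(2, ℝ)) (F : Set ℍ), QU.SurfaceGroup Γ → QU.NiceDom Γ F → ∃ a1 : ℝ, 0 < a1 ∧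
  ∀ a Cκ : ℝ, 0 < a → a ≤ a1 → 1 ≤ Cκ → ∃ n1 : ℕ, ∀ (N0 : ℕ) (ρ : ℝ) (A : Finset SL(2, ℝ)) (κ κa κn κl : SL(2, ℝ) → ℝ), n1 ≤ N0 → 0 ≤ ρ → ρ ≤ 1 / 2000 → CO Γ a Cκ ρ N0 A κ κa κn κl → ∃ R0 : ℝ, 1 ≤ R0 ∧
    ∀ (r t1 : ℝ) (φ : ℍ → ℂ), R0 ≤ r → EigL Γ (1 / 4 + r ^ 2) φ → nn F φ = 1 → Real.sqrt (Real.log r) ≤ t1 → t1 ≤ Real.log r - Real.sqrt (Real.log r) →
      1 / 5 ≤ EX F β α r φ (fun g => κ (g * aM t1)) → EX F β α r φ (fun g => Bd κ N0 y0 (g * aM t1)) ≤ δ1 → EX F β α r φ (fun g => κ (g * aM t1)) ≤ 1 / 2 + ε + 500 * ρ - c6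

/-- **Row LYC** (layer cake; short-medium; pure). `Σ P V = ∫_0^1 P(V ≥ a) da` (`0 ≤ V ≤ 1`), same for `W`. For `0 < a < s`: `P(V ≥ a) + P(W ≥ s - a) ≤ 1 + ε`: integral over `[0, s]`: `s (1 + ε)`. For `s < a ≤ 1`: `P(V ≥ a) ≤ 1 + ε - P(W ≥ 0) ≤ 2ε`, same for `W`. Total `s + sε + 4ε ≤ s + 5ε`. -/
def LYC_stmt : Prop := ∀ (Ω : Type) [Fintype Ω] (P V W : Ω → ℝ) (s ε : ℝ), (∀ x, 0 ≤ P x) → (∀ x, 0 ≤ V x ∧ V x ≤ 1) → (∀ x, 0 ≤ W x ∧ W x ≤ 1) → 0 ≤ ε → 0 ≤ s → s ≤ 1 → 1 - ε ≤ ∑ x, P x →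
  (∀ a b : ℝ, s ≤ a + b → ∑ x ∈ Finset.univ.filter (fun x => a ≤ V x), P x + ∑ x ∈ Finset.univ.filter (fun x => b ≤ W x), P x ≤ 1 + ε) → ∑ x, P x * V x + ∑ x, P x * W x ≤ s + 5 * ε

/-! ## Choice of the cutoff and the theorem -/

/-- **Row KCH** (choice of `K`; medium; from IR: COV, LOB, FLI, TP.PKS (symmetric cutoffs), EN.XFL). Let `Y1 = Low ρ1 ⊆ Y2 = Low ρ2`, w.l.o.g. `ρ1 + η ≤ ρ2`. `a ≤ a1, 1/8000`, `a ≤ a0` (PKS), `32 a ≤ b1` (LOB for `s = ρ2` and a small part `δ''` of `δ'`), `Cκ = C(a)` (PKS; independent of `N0`).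
COV for `ρ1`, `η/2`, `δ''`: for large `q` boxes `A` of length `2q`, `#A ≤ e^((ρ1 + η/2) 2q)`. `N0 = ⌊e^(2q)⌋`, so `e^(2q)/2 ≤ N0 ≤ e^(2q)`, `BX Γ A a (2q) ⊆ BX Γ A a (log N0)`; PKS with `n = log N0`: `κ`, `A'`, `#A' ≤ 2 #A ≤ N0^(ρ1 + η)`; boxes `(16a, 16a/N0)` are contained in `(32a, 32a e^(-2q))`: LOB for `b = 32 a`, `#A' ≤ e^(ρ2 2q)`.
`κ = 1` on `Y1` up to the mass `δ''`; `μ{κ ≠ 0, not in Y2} ≤ δ''`; so `|κ - 1_(Y1)| ≤ 1` is not zero only on a set of mass `≤ μ(Y2 \ Y1) + 2δ''`; as `Y1` is invariant under the flow (FLI) the integral of the last line is `≤ 2 (μ(Y2 \ Y1) + 2δ'')`. -/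
def KCH_stmt : Prop := ∀ (Γ : Subgroup SL(2, ℝ)) (μ : Measure (XG Γ)) (ρ1 ρ2 δ δ' η a1 : ℝ), QU.SurfaceGroup Γ → IsProbabilityMeasure μ → (∀ t, μ.map (fl Γ t) = μ) → 0 ≤ ρ1 → ρ1 < ρ2 → μ.real (Low Γ μ ρ2) ≤ μ.real (Low Γ μ ρ1) + δ → 0 ≤ δ → 0 < δ' → 0 < η → 0 < a1 →
  ∃ a Cκ : ℝ, 0 < a ∧ a ≤ a1 ∧ a ≤ 1 / 8000 ∧ 1 ≤ Cκ ∧ ∀ n1 : ℕ, ∃ (N0 : ℕ) (A : Finset SL(2, ℝ)) (κ κa κn κl : SL(2, ℝ) → ℝ), n1 ≤ N0 ∧ CO Γ a Cκ (ρ1 + η) N0 A κ κa κn κl ∧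
    ∃ κX : XG Γ → ℝ, Continuous κX ∧ (∀ g, κX (mkX Γ g) = κ g) ∧ μ.real (Low Γ μ ρ1) - δ' ≤ ∫ x, κX x ∂μ ∧ ∀ s : ℝ, ∫ x, (κX x * (1 - κX (fl Γ s x)) + κX (fl Γ s x) * (1 - κX x)) ∂μ ≤ 2 * δ + δ'

/-- **Row FN2** (THEOREM T1 (1); medium; from FN1, KCH, MS.NM3, EN.XFL). `y0, c6, δ1` from FN1, `ε = c6/20`, `c = min (c6/4) (1/8)`. `Δ > 0` with `(y0 + 2) Δ =: Δ2`, `√Δ2 ≤ c6/20`, `2 √Δ2 + Δ2 ≤ δ1/2`, `√Δ2 ≤ 1/100`; `J ∈ ℕ` with `4/J ≤ Δ`; `ρmax ≤ 1/4000`, `500 · 2 ρmax ≤ c6/20`; `ρ0 = ρmax/(J + 1)`; pigeonhole for the increasing `F(ρ) = μ.real (Low ρ)` at `ρmax (i + 1)/(J + 1)`,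
`i ≤ J`: `ρ1 < ρ2`, `F(ρ2) ≤ F(ρ1) + 1/J`. `m = F(ρ1) ≥ F(ρ0)`; if `m < 3/8` done. KCH with `δ = 1/J`, `δ' = min (Δ/2) (c6/20) (1/100)`, `η = ρmax`, so `2δ + δ' ≤ Δ`; `B = Bd` on `X` (continuous: `(u, x) ↦ κX (fl u x)` is continuous), `∫ B dμ ≤ (y0 + 2) Δ`. The property of `μ` for `Ψ = κX - Λ B`, `Λ = 1/√Δ2`, `b = ∫ Ψ dμ - tiny`: there are
`k` with `r k ≥ R0` and `t1` with `EX κ - Λ EX B ≥ m - δ' - √Δ2 - tiny` (NM3: `r qn → 1`). So `EX κ ≥ m - c6/8 ≥ 1/5` and `EX B ≤ (1 + tiny)/Λ + .. ≤ δ1` (`EX κ ≤ 1 + tiny`). FN1: `m ≤ 1/2 + ε + 500 · 2 ρmax + c6/8 - c6`. -/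
def FN2_stmt : Prop := ∀ β α : ℝ → ℝ, BB (1 / 4) β → BA (1 / 8) α → ∃ c ρ0 : ℝ, 0 < c ∧ 0 < ρ0 ∧ ∀ (Γ : Subgroup SL(2, ℝ)) (F : Set ℍ) (r : ℕ → ℝ) (φ : ℕ → ℍ → ℂ) (μ : Measure (XG Γ)), QU.SurfaceGroup Γ → QU.NiceDom Γ F →
  Tendsto r atTop atTop → (∀ k, Eig Γ (r k) (φ k)) → (∀ k, nn F (φ k) = 1) → IsProbabilityMeasure μ → (∀ t, μ.map (fl Γ t) = μ) →
  (∀ (Ψ : XG Γ → ℝ) (b : ℝ), Continuous Ψ → b < ∫ x, Ψ x ∂μ → ∃ᶠ k in atTop, ∃ t : ℝ, Real.sqrt (Real.log (r k)) ≤ t ∧ t ≤ Real.log (r k) - Real.sqrt (Real.log (r k)) ∧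
    b * qn F (pc β α) (r k) (φ k) < iR F (fun g => Ψ (mkX Γ (g * aM t)) * ‖pf β α (r k) (φ k) g‖ ^ 2)) →
  μ.real (Low Γ μ ρ0) ≤ 1 / 2 - c

end

end Pool.Agent.T1
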