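import Pool.Agent.helper52.IR.Spec

/-!
# MP_07c750 (quantum unique ergodicity, weight 10), PROJECT T1 (helper52): every quantum limit of every closed hyperbolic surface has entropy at least `1/2 + c`

Page: /team-store/H9_T1_helper52.md. This file: the definitions. Block length `n = log N0`, `N0` a large integer; `M` blocks; labels `p : ℕ → Bool` (`true` = K: few boxes; `false` = U); only `p 0 .. p (M - 1)` matter.

* `YC W N0 k p h`: cells `c < N0^k` (`c ↔ v ∈ [c/N0^k, (c+1)/N0^k)`) of the unstable leaf `v ↦ h lM (4v)` whose FUTURE has the labels `p`: for every `i < k` with `p i = K` the ancestor cell of level `i + 1` contains a point `v` with `h lM(4v) aM(i n) ∈ W`. (No condition for `U`.)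
* `JN W N0 k q g`: cells `j < N0^k` (`j ↔ x ∈ [j/N0^k, (j+1)/N0^k)`) of the stable leaf `x ↦ g nM x` whose PAST has the labels `q`; `q i` belongs to the time `-(k - i) n`: the ancestor cell of level `k - i` contains `x` with `g nM x aM(-(k - i) n) ∈ W`. (So the last label `q (k-1)` is the coarsest digit.)
* `LQ Y J Q`: the leaf inequality `∫_Y |Σ_J a_j e(jv)|² dv ≤ Q Σ |a_j|²`.
-/

open scoped MatrixGroups ContDiff Topology UpperHalfPlane ComplexConjugate
open UpperHalfPlane MeasureTheory Filter Set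

namespace Pool.Agent.T1

open Pool.Agent.RS Pool.Agent.MS Pool.Agent.HV
open Pool.Agent.EN (XG MG mkX mkM fl pr)

noncomputable section

open Classical in
/-- number of `K` labels in `[s, t)` -/
def Kc (p : ℕ → Bool) (s t : ℕ) : ℕ := ((Finset.Ico s t).filter fun i => p i = true).card

open Classical in
/-- number of coincidences `UU` in `[s, t)` -/
def UU (p q : ℕ → Bool) (s t : ℕ) : ℕ := ((Finset.Ico s t).filter fun i => p i = false ∧ q i = false).card

open Classical in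
/-- number of coincidences `KK` in `[s, t)` -/
def KK (p q : ℕ → Bool) (s t : ℕ) : ℕ := ((Finset.Ico s t).filter fun i => p i = true ∧ q i = true).card

/-- shifted labels -/
def sh (s : ℕ) (p : ℕ → Bool) (i : ℕ) : Bool := p (s + i)

open Classical in
/-- cells of the unstable leaf of `h` with the future labels `p` -/
def YC (W : Set SL(2, ℝ)) (N0 k : ℕ) (p : ℕ → Bool) (h : SL(2, ℝ)) : Finset ℕ :=
  (Finset.range (N0 ^ k)).filter fun c => ∀ i < k, p i = true → ∃ v : ℝ, ((c / N0 ^ (k - 1 - i) : ℕ) : ℝ) ≤ v * N0 ^ (i + 1) ∧ v * N0 ^ (i + 1) < ((c / N0 ^ (k - 1 - i) : ℕ) : ℝ) + 1 ∧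
    h * lM (4 * v) * aM (i * Real.log N0) ∈ W

open Classical in
/-- cells of the stable leaf of `g` with the past labels `q` -/
def JN (W : Set SL(2, ℝ)) (N0 k : ℕ) (q : ℕ → Bool) (g : SL(2, ℝ)) : Finset ℕ :=
  (Finset.range (N0 ^ k)).filter fun j => ∀ i < k, q i = true → ∃ x : ℝ, ((j / N0 ^ i : ℕ) : ℝ) ≤ x * N0 ^ (k - i) ∧ x * N0 ^ (k - i) < ((j / N0 ^ i : ℕ) : ℝ) + 1 ∧
    g * nM x * aM (-(((k - i : ℕ) : ℝ) * Real.log N0)) ∈ W

/-- the union of the cells `[c/N, (c+1)/N)`, `c ∈ C` -/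
def cel (N : ℕ) (C : Finset ℕ) : Set ℝ := {v | ∃ c ∈ C, (c : ℝ) / N ≤ v ∧ v < ((c : ℝ) + 1) / N}

/-- `e(x) = exp(2πix)` -/
def e1 (x : ℝ) : ℂ := Complex.exp (((2 * Real.pi * x : ℝ) : ℂ) * Complex.I)

/-- the leaf inequality -/
def LQ (Y : Set ℝ) (J : Finset ℕ) (Q : ℝ) : Prop := ∀ a : ℕ → ℂ, ∫ v in Y, ‖∑ j ∈ J, a j * e1 (j * v)‖ ^ 2 ≤ Q * ∑ j ∈ J, ‖a j‖ ^ 2

/-- the leaf inequality for the labels `p` (future), `q` (past) of `k` blocks, all base points -/
def PQ (W : Set SL(2, ℝ)) (N0 k : ℕ) (p q : ℕ → Bool) (Q : ℝ) : Prop := ∀ h g : SL(2, ℝ), LQ (cel (N0 ^ k) (YC W N0 k p h)) (JN W N0 k q g) Q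

/-- a window: `202 r` blocks from `a` on: `[a, a + 101 r)` and `[a + 101 r, a + 201 r)` have at most `r` labels `K`, `[a + 201 r, a + 202 r)` has at least `r/2000` -/
structure Win (p : ℕ → Bool) (a r : ℕ) : Prop where
  r1 : 1 ≤ r
  w1 : Kc p a (a + 101 * r) ≤ r
  w2 : Kc p (a + 101 * r) (a + 201 * r) ≤ r
  w3 : r ≤ 2000 * Kc p (a + 201 * r) (a + 202 * r)

/-- a decomposition of `[s, t)` into single blocks and windows of total length `L` -/
inductive Cut (p : ℕ → Bool) : ℕ → ℕ → ℕ → Prop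
  | nil (s : ℕ) : Cut p s s 0
  | blk (s t L : ℕ) : Cut p s t L → Cut p s (t + 1) L
  | win (s t L r : ℕ) : Cut p s t L → Win p t r → Cut p s (t + 202 * r) (L + 202 * r)

/-- the exponential sum over the points `k/N` -/
def EU (N : ℕ) (U : Finset ℤ) (t x : ℝ) : ℂ := ∑ k ∈ U, e1 (t * ((k / N) / (1 - x * (k / N))))

end

end Pool.Agent.T1
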